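import Mathlib

/-!
# Commutator laws on the solubilizer do not force nilpotency, for any weight at least four

The group is `PGL(2, 7)`, of order 336, acting on eight points, and `x` is an element of order
eight. The solubilizer of `x` is the dihedral group of order sixteen, which is nilpotent of
class three.
-/

set_option autoImplicit false
set_option maxRecDepth 100000

namespace Pool.Agent.Results.MP_7555fa_al.NilpotentSolubilizer

open scoped commutatorElement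

/-- The left-normed commutator `[u 0, u 1, ..., u (k - 1)]` of weight `k`, where
`[a, b] = a⁻¹ * b⁻¹ * a * b` (and the empty commutator is `1`). -/
def lcomm {G : Type*} [Group G] (u : ℕ → G) : ℕ → G
  | 0 => 1
  | 1 => u 0
  | n + 2 => (lcomm u (n + 1))⁻¹ * (u (n + 1))⁻¹ * lcomm u (n + 1) * u (n + 1)

/-- The rotation. -/
def x : Equiv.Perm (Fin 8) :=
  ⟨![1, 2, 3, 4, 5, 6, 7, 0], ![7, 0, 1, 2, 3, 4, 5, 6], by decide, by decide⟩

/-- The reflection. -/
def tau : Equiv.Perm (Fin 8) :=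
  ⟨![0, 7, 6, 5, 4, 3, 2, 1], ![0, 7, 6, 5, 4, 3, 2, 1], by decide, by decide⟩

/-- Involution 1. -/
def y1 : Equiv.Perm (Fin 8) :=
  ⟨![2, 5, 0, 6, 7, 1, 3, 4], ![2, 5, 0, 6, 7, 1, 3, 4], by decide, by decide⟩
/-- Involution 2. -/
def y2 : Equiv.Perm (Fin 8) :=
  ⟨![0, 1, 4, 6, 2, 7, 3, 5], ![0, 1, 4, 6, 2, 7, 3, 5], by decide, by decide⟩
/-- Involution 3. -/
def y3 : Equiv.Perm (Fin 8) :=
  ⟨![1, 0, 3, 2, 6, 7, 4, 5], ![1, 0, 3, 2, 6, 7, 4, 5], by decide, by decide⟩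
/-- Involution 4. -/
def y4 : Equiv.Perm (Fin 8) :=
  ⟨![0, 2, 1, 7, 5, 4, 6, 3], ![0, 2, 1, 7, 5, 4, 6, 3], by decide, by decide⟩
/-- Involution 5. -/
def y5 : Equiv.Perm (Fin 8) :=
  ⟨![0, 4, 7, 3, 1, 6, 5, 2], ![0, 4, 7, 3, 1, 6, 5, 2], by decide, by decide⟩

/-- Representatives of the double cosets of `⟨x⟩`. -/
def ys : Fin 7 → Equiv.Perm (Fin 8) := ![1, y1, y2, y3, y4, y5, tau]

/-- The group `PGL(2, 7)`. -/
def K : Subgroup (Equiv.Perm (Fin 8)) := Subgroup.closure {x, y1}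

/-- The table of products `y1 * x ^ k * ys l`. -/
def tab : Fin 7 → Fin 8 → ℕ × Fin 7 × ℕ := ![
  ![(0, 1, 0), (0, 1, 1), (0, 1, 2), (0, 1, 3), (0, 1, 4), (0, 1, 5), (0, 1, 6), (0, 1, 7)],
  ![(0, 0, 0), (3, 4, 7), (5, 2, 4), (5, 3, 6), (4, 1, 4), (2, 3, 3), (4, 2, 3), (1, 4, 5)],
  ![(1, 2, 1), (0, 2, 7), (5, 5, 3), (0, 3, 4), (6, 1, 5), (2, 1, 4), (7, 3, 6), (2, 5, 7)],
  ![(3, 2, 4), (5, 4, 7), (5, 1, 5), (1, 5, 5), (6, 5, 3), (3, 1, 2), (7, 4, 4), (6, 2, 2)],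
  ![(7, 5, 3), (7, 1, 3), (0, 6, 0), (1, 1, 1), (0, 5, 2), (1, 3, 1), (6, 4, 4), (6, 3, 4)],
  ![(4, 4, 6), (3, 3, 3), (7, 2, 1), (4, 5, 7), (3, 5, 1), (2, 2, 5), (4, 3, 5), (0, 4, 5)],
  ![(2, 4, 0), (2, 4, 7), (2, 4, 6), (2, 4, 5), (2, 4, 4), (2, 4, 3), (2, 4, 2), (2, 4, 1)]]

theorem tab_spec : ∀ l : Fin 7, ∀ k : Fin 8,
    y1 * x ^ (k : ℕ) * ys l = x ^ (tab l k).1 * ys (tab l k).2.1 * x ^ (tab l k).2.2 := by
  decide

theorem x_pow : x ^ (8 : ℤ) = 1 := by decide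

theorem x_zpow_mod (i : ℤ) : ∃ k : Fin 8, x ^ i = x ^ (k : ℕ) := by
  refine ⟨⟨(i % 8).toNat, ?_⟩, ?_⟩
  · omega
  · have h : i = 8 * (i / 8) + i % 8 := by omega
    have h2 : (((i % 8).toNat : ℕ) : ℤ) = i % 8 := Int.toNat_of_nonneg (by omega)
    rw [← zpow_natCast, h2]
    conv_lhs => rw [h]
    rw [zpow_add, zpow_mul, x_pow, one_zpow, one_mul]

theorem mem_K (s : Equiv.Perm (Fin 8)) (hs : s ∈ K) :
    ∃ (i j : ℤ) (l : Fin 7), s = x ^ i * ys l * x ^ j := by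
  have step : ∀ t : Equiv.Perm (Fin 8), (∃ (i j : ℤ) (l : Fin 7), t = x ^ i * ys l * x ^ j) →
      ∃ (i j : ℤ) (l : Fin 7), y1 * t = x ^ i * ys l * x ^ j := by
    rintro t ⟨i, j, l, rfl⟩
    obtain ⟨k, hk⟩ := x_zpow_mod i
    refine ⟨(tab l k).1, (tab l k).2.2 + j, (tab l k).2.1, ?_⟩
    rw [← mul_assoc, ← mul_assoc, hk, tab_spec, zpow_add, zpow_natCast, zpow_natCast, mul_assoc]
  refine Subgroup.closure_induction_left
    (p := fun s _ => ∃ (i j : ℤ) (l : Fin 7), s = x ^ i * ys l * x ^ j) ?_ ?_ ?_ hs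
  · exact ⟨0, 0, 0, by decide⟩
  · rintro g hg t - ht
    rcases hg with rfl | rfl
    · obtain ⟨i, j, l, rfl⟩ := ht
      exact ⟨1 + i, j, l, by rw [zpow_add, zpow_one]; simp only [mul_assoc]⟩
    · exact step t ht
  · rintro g hg t - ht
    rcases hg with rfl | rfl
    · obtain ⟨i, j, l, rfl⟩ := ht
      exact ⟨-1 + i, j, l, by rw [zpow_add, zpow_neg_one]; simp only [mul_assoc]⟩
    · have : y1⁻¹ = y1 := by decide
      rw [this]
      exact step t ht

/-- In a soluble group `a = c * ⁅a, b * a * b⁻¹⁆ * c⁻¹` forces `a = 1`. -/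
theorem soluble_trivial {Γ : Type*} [Group Γ] [Group.IsSolvable Γ] (a b c : Γ)
    (h : a = c * ⁅a, b * a * b⁻¹⁆ * c⁻¹) : a = 1 := by
  by_contra hne
  refine _root_.not_isSolvable_of_mem_derivedSeries hne (fun n => ?_) inferInstance
  induction n with
  | zero => exact Subgroup.mem_top a
  | succ n ih =>
    rw [h, (derivedSeries_normal _ _).mem_comm_iff, inv_mul_cancel_left]
    exact Subgroup.commutator_mem_commutator ih ((derivedSeries_normal _ _).conj_mem _ ih _)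

theorem soluble_trivial' {Γ : Type*} [Group Γ] (H : Subgroup Γ) (hH : Group.IsSolvable H)
    (a b c : Γ) (ha : a ∈ H) (hb : b ∈ H) (hc : c ∈ H)
    (h : a = c * ⁅a, b * a * b⁻¹⁆ * c⁻¹) : a = 1 := by
  have := soluble_trivial (⟨a, ha⟩ : H) ⟨b, hb⟩ ⟨c, hc⟩ (Subtype.ext h)
  exact congrArg Subtype.val this

theorem not_soluble (H : Subgroup (Equiv.Perm (Fin 8))) (hx : x ∈ H) (l : Fin 7)
    (hl : ys l ∈ H) (h0 : l ≠ 0) (h6 : l ≠ 6) : ¬ Group.IsSolvable H := by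
  intro hH
  have hl' : l = 1 ∨ l = 2 ∨ l = 3 ∨ l = 4 ∨ l = 5 := by
    have : ∀ l : Fin 7, l ≠ 0 → l ≠ 6 → l = 1 ∨ l = 2 ∨ l = 3 ∨ l = 4 ∨ l = 5 := by decide
    exact this l h0 h6
  rcases hl' with rfl | rfl | rfl | rfl | rfl
  · have hy : y1 ∈ H := hl
    exact absurd (soluble_trivial' H hH (x ^ 2) y1 (y1 * x ^ 2 * y1 * x ^ 2)
      (H.pow_mem hx 2) hy
      (H.mul_mem (H.mul_mem (H.mul_mem hy (H.pow_mem hx 2)) hy) (H.pow_mem hx 2)) (by decide))
      (by decide)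
  · have hy : y2 ∈ H := hl
    exact absurd (soluble_trivial' H hH (y2 * x) x (x ^ 2 * y2 * x)
      (H.mul_mem hy hx) hx (H.mul_mem (H.mul_mem (H.pow_mem hx 2) hy) hx) (by decide)) (by decide)
  · have hy : y3 ∈ H := hl
    exact absurd (soluble_trivial' H hH (y3 * x ^ 2) (x ^ 3) (x ^ 3 * y3 * x ^ 3)
      (H.mul_mem hy (H.pow_mem hx 2)) (H.pow_mem hx 3)
      (H.mul_mem (H.mul_mem (H.pow_mem hx 3) hy) (H.pow_mem hx 3)) (by decide)) (by decide)
  · have hy : y4 ∈ H := hl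
    exact absurd (soluble_trivial' H hH (y4 * x) (x ^ 2) (x ^ 2 * y4)
      (H.mul_mem hy hx) (H.pow_mem hx 2) (H.mul_mem (H.pow_mem hx 2) hy) (by decide)) (by decide)
  · have hy : y5 ∈ H := hl
    exact absurd (soluble_trivial' H hH (y5 * x ^ 3) (x ^ 4) (x ^ 2 * y5 * x ^ 5)
      (H.mul_mem hy (H.pow_mem hx 3)) (H.pow_mem hx 4)
      (H.mul_mem (H.mul_mem (H.pow_mem hx 2) hy) (H.pow_mem hx 5)) (by decide)) (by decide)

/-- The elements of the dihedral group of order sixteen. -/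
def dd (e : Fin 2) (i : Fin 8) : Equiv.Perm (Fin 8) := tau ^ (e : ℕ) * x ^ (i : ℕ)

theorem comm_one : ∀ e i e' i', ∃ j : Fin 4,
    (dd e i)⁻¹ * (dd e' i')⁻¹ * dd e i * dd e' i' = dd 0 (2 * j.castLE (by decide)) := by
  decide

theorem comm_two : ∀ (j : Fin 4) e i, ∃ m : Fin 2,
    (dd 0 (2 * j.castLE (by decide)))⁻¹ * (dd e i)⁻¹ * dd 0 (2 * j.castLE (by decide)) * dd e i =
      dd 0 (4 * m.castLE (by decide)) := by
  decide

theorem comm_three : ∀ (m : Fin 2) e i,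
    (dd 0 (4 * m.castLE (by decide)))⁻¹ * (dd e i)⁻¹ * dd 0 (4 * m.castLE (by decide)) * dd e i =
      1 := by
  decide

theorem sol_mem (H : Subgroup (Equiv.Perm (Fin 8))) (hH : Group.IsSolvable H) (hx : x ∈ H)
    (s : Equiv.Perm (Fin 8)) (hs : s ∈ K) (hsH : s ∈ H) : ∃ e i, s = dd e i := by
  obtain ⟨i, j, l, h⟩ := mem_K s hs
  have hl : ys l ∈ H := by
    have : ys l = (x ^ i)⁻¹ * s * (x ^ j)⁻¹ := by rw [h]; group
    rw [this]
    exact H.mul_mem (H.mul_mem (H.inv_mem (H.zpow_mem hx i)) hsH) (H.inv_mem (H.zpow_mem hx j))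
  by_cases h0 : l = 0
  · subst h0
    obtain ⟨k, hk⟩ := x_zpow_mod (i + j)
    refine ⟨0, k, ?_⟩
    rw [h]
    show x ^ i * 1 * x ^ j = tau ^ 0 * x ^ (k : ℕ)
    rw [mul_one, ← zpow_add, hk, pow_zero, one_mul]
  · by_cases h6 : l = 6
    · subst h6
      have hcomm : ∀ n : ℤ, x ^ n * tau = tau * x ^ (-n) := by
        intro n
        have h1 : x = tau * x⁻¹ * tau⁻¹ := by decide
        have h2 : x ^ n = tau * x ^ (-n) * tau⁻¹ := by
          conv_lhs => rw [h1]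
          rw [conj_zpow, inv_zpow, zpow_neg]
        rw [h2]; group
      obtain ⟨k, hk⟩ := x_zpow_mod (-i + j)
      refine ⟨1, k, ?_⟩
      rw [h]
      show x ^ i * tau * x ^ j = tau ^ 1 * x ^ (k : ℕ)
      rw [hcomm, mul_assoc, ← zpow_add, hk, pow_one]
    · exact absurd hH (not_soluble H hx l hl h0 h6)

/-- The element `x` of `PGL(2, 7)`. -/
def xK : K := ⟨x, Subgroup.subset_closure (by simp)⟩

theorem sol_dd (u : K) (hu : Group.IsSolvable (Subgroup.closure {xK, u})) :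
    ∃ e i, (u : Equiv.Perm (Fin 8)) = dd e i := by
  let H : Subgroup (Equiv.Perm (Fin 8)) := (Subgroup.closure {xK, u}).map K.subtype
  have hH : Group.IsSolvable H := by
    have e := (Subgroup.closure {xK, u}).equivMapOfInjective K.subtype K.subtype_injective
    exact Group.isSolvable_of_surjective (f := e.toMonoidHom) e.surjective
  refine sol_mem H hH ?_ u u.2 ?_
  · exact ⟨xK, Subgroup.subset_closure (by simp), rfl⟩
  · exact ⟨u, Subgroup.subset_closure (by simp), rfl⟩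

theorem lcomm_coe (u : ℕ → K) : ∀ n, ((lcomm u n : K) : Equiv.Perm (Fin 8)) =
    lcomm (fun i => (u i : Equiv.Perm (Fin 8))) n
  | 0 => rfl
  | 1 => rfl
  | n + 2 => by
    show (((lcomm u (n + 1))⁻¹ * (u (n + 1))⁻¹ * lcomm u (n + 1) * u (n + 1) : K) :
      Equiv.Perm (Fin 8)) = _
    simp only [Subgroup.coe_mul, Subgroup.coe_inv, lcomm_coe u (n + 1)]
    rfl

/-- For the group `G = PGL(2, 7)` and an element `x` of order eight: for every `k ≥ 4`, all
left-normed commutators of weight `k` with entries in the solubilizer of `x` are trivial, but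
`γ_k(G)` is not trivial. -/
theorem result :
    ∃ (G : Type) (_ : Group G) (_ : Finite G) (x : G), ∀ k : ℕ, 4 ≤ k →
      (∀ u : ℕ → G, (∀ i, i < k → Group.IsSolvable (Subgroup.closure {x, u i})) →
        lcomm u k = 1) ∧
      (⊤ : Subgroup G).lowerCentralSeries (k - 1) ≠ ⊥ := by
  refine ⟨K, inferInstance, inferInstance, xK, fun k hk => ⟨?_, ?_⟩⟩
  · intro u hu
    have hd : ∀ i, i < k → ∃ e j, (u i : Equiv.Perm (Fin 8)) = dd e j :=
      fun i hi => sol_dd (u i) (hu i hi)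
    have h4 : ∀ n, lcomm (fun i => (u i : Equiv.Perm (Fin 8))) (n + 4) = 1 ∨ k < n + 4 := by
      intro n
      induction n with
      | zero =>
        left
        obtain ⟨e0, i0, h0⟩ := hd 0 (by omega)
        obtain ⟨e1, i1, h1⟩ := hd 1 (by omega)
        obtain ⟨e2, i2, h2⟩ := hd 2 (by omega)
        obtain ⟨e3, i3, h3⟩ := hd 3 (by omega)
        show (((_ : Equiv.Perm (Fin 8))⁻¹ * (u 3 : Equiv.Perm (Fin 8))⁻¹ * _ * (u 3)) = 1)
        simp only [lcomm, h0, h1, h2, h3]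
        obtain ⟨j, hj⟩ := comm_one e0 i0 e1 i1
        rw [hj]
        obtain ⟨m, hm⟩ := comm_two j e2 i2
        rw [hm]
        exact comm_three m e3 i3
      | succ n ih =>
        rcases ih with ih | ih
        · left
          show (lcomm _ (n + 4))⁻¹ * _ * lcomm _ (n + 4) * _ = 1
          rw [ih]
          group
        · right; omega
    obtain ⟨n, rfl⟩ := Nat.exists_eq_add_of_le' hk
    rcases h4 n with h | h
    · exact Subtype.ext (by rw [lcomm_coe, h]; rfl)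
    · omega
  · intro hbot
    have hnil : Group.IsNilpotent K := Subgroup.nilpotent_iff_lowerCentralSeries.2 ⟨k - 1, hbot⟩
    have hsol : Group.IsSolvable K := inferInstance
    exact not_soluble K (Subgroup.subset_closure (by simp)) 1
      (Subgroup.subset_closure (by simp [ys])) (by decide) (by decide) hsol

end Pool.Agent.Results.MP_7555fa_al.NilpotentSolubilizer
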